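import Mathlib

/-!
# Conjunctions of local tests accept few minimal sets

If a conjunction of tests, each of which reads at most `k` bits, rejects all proper subsets of the
members of a family of `m`-element sets, then it accepts at most `k ^ m` members of the family.
-/

set_option autoImplicit false

namespace Pool.Agent.H831R3.MM

open Finset

/-- The core counting lemma. `bit a x` is the bit `a` of the input `x`, and `code K` is the input
that belongs to the set `K` of bits. -/
theorem core {α I : Type*} [DecidableEq α] (bit : α → I → Prop) (code : Finset α → I)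
    (M : Finset (Finset α)) (hcode : ∀ A ∈ M, ∀ K ⊆ A, ∀ a, bit a (code K) ↔ a ∈ K)
    (k m : ℕ) (C : Set (I → Prop))
    (hC : ∀ g ∈ C, ∃ T : Finset α, T.card ≤ k ∧
      ∀ x y : I, (∀ a ∈ T, bit a x ↔ bit a y) → (g x ↔ g y))
    (hcard : ∀ A ∈ M, A.card = m) (hacc : ∀ A ∈ M, ∀ g ∈ C, g (code A))
    (hrej : ∀ A ∈ M, ∀ K ⊂ A, ∃ g ∈ C, ¬ g (code K)) : M.card ≤ k ^ m := by
  classical
  have key : ∀ r : ℕ, ∀ K : Finset α, K.card + r = m → (M.filter (K ⊆ ·)).card ≤ k ^ r := by
    intro r
    induction r with
    | zero =>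
      intro K hK
      rw [pow_zero, Finset.card_le_one]
      intro A hA B hB
      rw [mem_filter] at hA hB
      rw [← eq_of_subset_of_card_le hA.2 (by rw [hcard A hA.1]; omega),
        ← eq_of_subset_of_card_le hB.2 (by rw [hcard B hB.1]; omega)]
    | succ r ih =>
      intro K hK
      rcases (M.filter (K ⊆ ·)).eq_empty_or_nonempty with h0 | ⟨A₀, hA₀⟩
      · rw [h0, card_empty]; exact Nat.zero_le _
      · rw [mem_filter] at hA₀
        have hss : K ⊂ A₀ := by
          refine ssubset_of_subset_of_ne hA₀.2 fun h => ?_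
          have := hcard A₀ hA₀.1
          rw [← h] at this
          omega
        obtain ⟨g, hgC, hg⟩ := hrej A₀ hA₀.1 K hss
        obtain ⟨T, hT, hTg⟩ := hC g hgC
        have hcov : M.filter (K ⊆ ·) ⊆ (T \ K).biUnion fun a => M.filter (insert a K ⊆ ·) := by
          intro A hA
          rw [mem_filter] at hA
          have hne : ¬ ∀ a ∈ T, bit a (code A) ↔ bit a (code K) := fun h =>
            hg ((hTg _ _ h).1 (hacc A hA.1 g hgC))
          push Not at hne
          obtain ⟨a, haT, ha⟩ := hne
          rw [hcode A hA.1 A (Subset.refl A), hcode A hA.1 K hA.2] at ha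
          have haA : a ∈ A ∧ a ∉ K := by
            rcases ha with h | h
            · exact h
            · exact absurd (hA.2 h.2) h.1
          rw [mem_biUnion]
          refine ⟨a, mem_sdiff.2 ⟨haT, haA.2⟩, mem_filter.2 ⟨hA.1, insert_subset haA.1 hA.2⟩⟩
        calc (M.filter (K ⊆ ·)).card
            ≤ ((T \ K).biUnion fun a => M.filter (insert a K ⊆ ·)).card := card_le_card hcov
          _ ≤ ∑ a ∈ T \ K, (M.filter (insert a K ⊆ ·)).card := card_biUnion_le
          _ ≤ ∑ _a ∈ T \ K, k ^ r := by
            refine sum_le_sum fun a ha => ih _ ?_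
            rw [card_insert_of_notMem (mem_sdiff.1 ha).2]
            omega
          _ = (T \ K).card * k ^ r := by rw [sum_const, smul_eq_mul]
          _ ≤ k * k ^ r := Nat.mul_le_mul_right _ ((card_le_card sdiff_subset).trans hT)
          _ = k ^ (r + 1) := by rw [pow_succ, mul_comm]
  have h := key m ∅ (by simp)
  simpa using h

/-- The number of relabelings of a set of edges. -/
theorem orbit {n : ℕ} (H : Finset (Sym2 (Fin n))) :
    n.factorial ≤ (univ.filter fun τ : Equiv.Perm (Fin n) => H.image (Sym2.map τ) = H).card *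
      (univ.image fun σ : Equiv.Perm (Fin n) => H.image (Sym2.map σ)).card := by
  classical
  have h := Finset.card_le_mul_card_image (s := (univ : Finset (Equiv.Perm (Fin n))))
    (f := fun σ : Equiv.Perm (Fin n) => H.image (Sym2.map σ))
    (univ.filter fun τ : Equiv.Perm (Fin n) => H.image (Sym2.map τ) = H).card ?_
  · rw [card_univ, Fintype.card_perm, Fintype.card_fin] at h
    exact h
  · intro A hA
    rw [mem_image] at hA
    obtain ⟨σ₀, -, rfl⟩ := hA
    refine card_le_card_of_injOn (fun σ => σ₀⁻¹ * σ) ?_ ?_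
    · intro σ hσ
      rw [mem_coe, mem_filter] at hσ
      rw [mem_coe, mem_filter]
      refine ⟨mem_univ _, ?_⟩
      have h1 : (H.image (Sym2.map σ)).image (Sym2.map (σ₀⁻¹ : Equiv.Perm (Fin n))) =
          (H.image (Sym2.map σ₀)).image (Sym2.map (σ₀⁻¹ : Equiv.Perm (Fin n))) := by
        rw [hσ.2]
      rw [image_image, image_image] at h1
      have h2 : (Sym2.map (σ₀⁻¹ : Equiv.Perm (Fin n)) ∘ Sym2.map σ₀ : Sym2 (Fin n) → Sym2 (Fin n))
          = id := by
        rw [← Sym2.map_comp]
        have : ((σ₀⁻¹ : Equiv.Perm (Fin n)) ∘ σ₀ : Fin n → Fin n) = id := by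
          funext x; simp
        rw [this, Sym2.map_id]
      rw [h2, image_id] at h1
      have h4 : H.image (Sym2.map (σ₀⁻¹ * σ : Equiv.Perm (Fin n))) =
          image (Sym2.map ⇑σ₀⁻¹ ∘ Sym2.map ⇑σ) H := by
        rw [← Sym2.map_comp]; rfl
      exact h4.trans h1
    · intro σ _ τ _ h
      exact mul_left_cancel h

end Pool.Agent.H831R3.MM
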