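import Pool.Agent.H831R3.MM.Core

/-!
# Local tests for graphs: copies of a fixed graph
-/

set_option autoImplicit false

namespace Pool.Agent.H831R3.MM

open Finset

/-- The test `g` of a graph on the vertex set `V` looks at no more than `k` pairs of vertices: its
outcome only depends on which of the at most `k` pairs in `T` are edges. -/
def Reads {V : Type} (k : ℕ) (g : SimpleGraph V → Prop) : Prop :=
  ∃ T : Finset (Sym2 V), T.card ≤ k ∧
    ∀ G G' : SimpleGraph V, (∀ e ∈ T, e ∈ G.edgeSet ↔ e ∈ G'.edgeSet) → (g G ↔ g G')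

variable {n : ℕ}

theorem edgeSet_image (H : SimpleGraph (Fin n)) [DecidableRel H.Adj] (σ : Equiv.Perm (Fin n)) :
    (H.map σ.toEmbedding).edgeSet = (↑(H.edgeFinset.image (Sym2.map σ)) : Set (Sym2 (Fin n))) := by
  rw [SimpleGraph.edgeSet_map, coe_image, SimpleGraph.coe_edgeFinset]
  rfl

theorem fromEdgeSet_image (H : SimpleGraph (Fin n)) [DecidableRel H.Adj]
    (σ : Equiv.Perm (Fin n)) :
    SimpleGraph.fromEdgeSet (↑(H.edgeFinset.image (Sym2.map σ)) : Set (Sym2 (Fin n))) =
      H.map σ.toEmbedding := by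
  rw [← edgeSet_image, SimpleGraph.fromEdgeSet_edgeSet]

theorem stab_card (H : SimpleGraph (Fin n)) [DecidableRel H.Adj] :
    (univ.filter fun τ : Equiv.Perm (Fin n) =>
      H.edgeFinset.image (Sym2.map τ) = H.edgeFinset).card ≤ Nat.card (H ≃g H) := by
  classical
  have : Finite (H ≃g H) := Finite.of_injective (fun φ : H ≃g H => φ.toEquiv)
    fun φ ψ h => RelIso.toEquiv_injective h
  have key : ∀ τ : {τ : Equiv.Perm (Fin n) //
      H.edgeFinset.image (Sym2.map τ) = H.edgeFinset}, ∀ u v : Fin n,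
      H.Adj (τ.1 u) (τ.1 v) ↔ H.Adj u v := by
    rintro ⟨τ, hτ⟩ u v
    have h1 : s(τ u, τ v) ∈ H.edgeFinset ↔ s(u, v) ∈ H.edgeFinset := by
      constructor
      · intro h
        rw [← hτ, mem_image] at h
        obtain ⟨e, he, h2⟩ := h
        have h3 : Sym2.map τ e = Sym2.map τ s(u, v) := by rw [h2]; rfl
        rw [← Sym2.map.injective τ.injective h3]
        exact he
      · intro h
        rw [← hτ, mem_image]
        exact ⟨s(u, v), h, rfl⟩
    simpa using h1
  rw [← Fintype.card_subtype, ← Nat.card_eq_fintype_card]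
  refine Nat.card_le_card_of_injective
    (fun τ => (⟨τ.1, fun {a b} => key τ a b⟩ : H ≃g H)) ?_
  intro τ ρ h
  have := congrArg (fun φ : H ≃g H => φ.toEquiv) h
  exact Subtype.ext this

/-- The edge sets of the copies of `H`. -/
noncomputable def copySets (H : SimpleGraph (Fin n)) : Finset (Finset (Sym2 (Fin n))) := by
  classical
  exact univ.image fun σ : Equiv.Perm (Fin n) => H.edgeFinset.image (Sym2.map σ)

/-- The graph with a given set of edges. -/
def gr (K : Finset (Sym2 (Fin n))) : SimpleGraph (Fin n) :=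
  SimpleGraph.fromEdgeSet (↑K : Set (Sym2 (Fin n)))

theorem exists_of_mem {H : SimpleGraph (Fin n)} {A : Finset (Sym2 (Fin n))}
    (hA : A ∈ copySets H) : ∃ σ : Equiv.Perm (Fin n), gr A = H.map σ.toEmbedding ∧
      (H.map σ.toEmbedding).edgeSet = (↑A : Set (Sym2 (Fin n))) := by
  classical
  rw [copySets, mem_image] at hA
  obtain ⟨σ, -, rfl⟩ := hA
  refine ⟨σ, ?_, ?_⟩
  · exact fromEdgeSet_image H σ
  · exact edgeSet_image H σ

theorem card_of_mem {H : SimpleGraph (Fin n)} {A : Finset (Sym2 (Fin n))}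
    (hA : A ∈ copySets H) : A.card = Nat.card H.edgeSet := by
  classical
  rw [copySets, mem_image] at hA
  obtain ⟨σ, -, rfl⟩ := hA
  rw [card_image_of_injective _ (Sym2.map.injective σ.injective), Nat.card_eq_fintype_card,
    ← SimpleGraph.edgeFinset_card]

theorem copySets_card (H : SimpleGraph (Fin n)) :
    n.factorial ≤ Nat.card (H ≃g H) * (copySets H).card := by
  classical
  exact (orbit H.edgeFinset).trans (Nat.mul_le_mul_right _ (stab_card H))

open Classical in
/-- One conjunction of tests accepts at most `k ^ e(H)` copies of `H`. -/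
theorem count_one (H : SimpleGraph (Fin n)) {k : ℕ} (C : Set (SimpleGraph (Fin n) → Prop))
    (hC : ∀ g ∈ C, Reads k g)
    (hrej : ∀ σ : Equiv.Perm (Fin n), ∀ K : SimpleGraph (Fin n),
      K < H.map σ.toEmbedding → ∃ g ∈ C, ¬ g K) :
    ((copySets H).filter fun A : Finset (Sym2 (Fin n)) => ∀ g ∈ C, g (gr A)).card ≤
      k ^ Nat.card H.edgeSet := by
  refine core (fun e (G : SimpleGraph (Fin n)) => e ∈ G.edgeSet) gr _ ?_ k _ C
    (fun g hg => hC g hg) ?_ ?_ ?_
  · intro A hA K hK e
    obtain ⟨σ, h1, h2⟩ := exists_of_mem (mem_filter.1 hA).1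
    rw [gr, SimpleGraph.edgeSet_fromEdgeSet]
    constructor
    · rintro ⟨h, -⟩
      exact mem_coe.1 h
    · intro h
      refine ⟨mem_coe.2 h, fun hd => ?_⟩
      have h3 : e ∈ (H.map σ.toEmbedding).edgeSet := by
        rw [h2]
        exact mem_coe.2 (hK h)
      exact SimpleGraph.not_isDiag_of_mem_edgeSet _ h3 hd
  · intro A hA
    exact card_of_mem (mem_filter.1 hA).1
  · intro A hA g hg
    exact (mem_filter.1 hA).2 g hg
  · intro A hA K hK
    obtain ⟨σ, h1, h2⟩ := exists_of_mem (mem_filter.1 hA).1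
    refine hrej σ _ ?_
    rw [← SimpleGraph.edgeSet_ssubset_edgeSet, h2, gr, SimpleGraph.edgeSet_fromEdgeSet]
    refine Set.ssubset_of_subset_of_ssubset Set.sdiff_subset ?_
    exact_mod_cast hK

/-- If `t` conjunctions of tests that read `k` pairs accept all the copies of `H` and none of the
proper subgraphs of the copies of `H`, then `n ! ≤ t k ^ e(H) |Aut H|`. -/
theorem copies (H : SimpleGraph (Fin n)) {t k : ℕ} (P : Fin t → Set (SimpleGraph (Fin n) → Prop))
    (hP : ∀ i, ∀ g ∈ P i, Reads k g)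
    (hacc : ∀ σ : Equiv.Perm (Fin n), ∃ i, ∀ g ∈ P i, g (H.map σ.toEmbedding))
    (hrej : ∀ i, ∀ σ : Equiv.Perm (Fin n), ∀ K : SimpleGraph (Fin n),
      K < H.map σ.toEmbedding → ∃ g ∈ P i, ¬ g K) :
    n.factorial ≤ t * k ^ Nat.card H.edgeSet * Nat.card (H ≃g H) := by
  classical
  have hcov : copySets H ⊆ univ.biUnion fun i : Fin t =>
      (copySets H).filter fun A : Finset (Sym2 (Fin n)) => ∀ g ∈ P i, g (gr A) := by
    intro A hA
    obtain ⟨σ, h1, -⟩ := exists_of_mem hA
    obtain ⟨i, hi⟩ := hacc σ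
    rw [mem_biUnion]
    refine ⟨i, mem_univ _, mem_filter.2 ⟨hA, ?_⟩⟩
    rw [h1]
    exact hi
  have h2 : (copySets H).card ≤ t * k ^ Nat.card H.edgeSet := by
    refine (card_le_card hcov).trans (card_biUnion_le.trans ?_)
    refine (sum_le_sum fun i _ => count_one H (P i) (hP i) (hrej i)).trans ?_
    rw [sum_const, card_univ, Fintype.card_fin, smul_eq_mul]
  calc n.factorial ≤ Nat.card (H ≃g H) * (copySets H).card := copySets_card H
    _ ≤ Nat.card (H ≃g H) * (t * k ^ Nat.card H.edgeSet) := Nat.mul_le_mul_left _ h2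
    _ = _ := by ring

/-- The randomised version: some copy of `H` is accepted by at most the fraction
`k ^ e(H) |Aut H| / n !` of the conjunctions. -/
theorem copies_random (H : SimpleGraph (Fin n)) {k : ℕ} {Ω : Type} [Fintype Ω]
    (P : Ω → Set (SimpleGraph (Fin n) → Prop)) (hP : ∀ i, ∀ g ∈ P i, Reads k g)
    (hrej : ∀ i, ∀ σ : Equiv.Perm (Fin n), ∀ K : SimpleGraph (Fin n),
      K < H.map σ.toEmbedding → ∃ g ∈ P i, ¬ g K) :
    ∃ σ : Equiv.Perm (Fin n), n.factorial * Nat.card {i : Ω // ∀ g ∈ P i,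
        g (H.map σ.toEmbedding)} ≤
      k ^ Nat.card H.edgeSet * Nat.card (H ≃g H) * Fintype.card Ω := by
  classical
  have hne : (copySets H).Nonempty := by
    rw [← card_pos]
    have h := copySets_card H
    have h0 := n.factorial_pos
    by_contra hcon
    have : (copySets H).card = 0 := by omega
    rw [this, mul_zero] at h
    omega
  let a : Finset (Sym2 (Fin n)) → ℕ := fun A =>
    (univ.filter fun i : Ω => ∀ g ∈ P i, g (gr A)).card
  have hsum : ∑ A ∈ copySets H, a A ≤ Fintype.card Ω * k ^ Nat.card H.edgeSet := by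
    have h1 : ∑ A ∈ copySets H, a A = ∑ i : Ω,
        ((copySets H).filter fun A : Finset (Sym2 (Fin n)) => ∀ g ∈ P i, g (gr A)).card := by
      simp only [a, card_filter]
      exact sum_comm
    rw [h1]
    refine (sum_le_sum fun i _ => count_one H (P i) (hP i) (hrej i)).trans ?_
    rw [sum_const, card_univ, smul_eq_mul]
  obtain ⟨A, hA, hmin⟩ := exists_min_image (copySets H) a hne
  have h3 : (copySets H).card * a A ≤ Fintype.card Ω * k ^ Nat.card H.edgeSet := by
    refine le_trans ?_ hsum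
    rw [← smul_eq_mul, ← sum_const]
    exact sum_le_sum fun B hB => hmin B hB
  obtain ⟨σ, h1, -⟩ := exists_of_mem hA
  refine ⟨σ, ?_⟩
  have h4 : Nat.card {i : Ω // ∀ g ∈ P i, g (H.map σ.toEmbedding)} = a A := by
    rw [← h1, Nat.card_eq_fintype_card, Fintype.card_subtype]
  rw [h4]
  calc n.factorial * a A ≤ Nat.card (H ≃g H) * (copySets H).card * a A :=
        Nat.mul_le_mul_right _ (copySets_card H)
    _ = Nat.card (H ≃g H) * ((copySets H).card * a A) := by ring
    _ ≤ Nat.card (H ≃g H) * (Fintype.card Ω * k ^ Nat.card H.edgeSet) :=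
        Nat.mul_le_mul_left _ h3
    _ = _ := by ring

end Pool.Agent.H831R3.MM
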