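import Pool.Agent.H831R3.MM.Iso

/-!
# Hamiltonian cycles: random conjunctions of local tests
-/

set_option autoImplicit false

namespace Pool.Agent.H831R3.MM

open Finset SimpleGraph

theorem ham_iff {m : ℕ} (G : SimpleGraph (Fin (m + 3))) :
    G.IsHamiltonian ↔ ∃ (v : Fin (m + 3)) (p : G.Walk v v), p.IsCycle ∧ p.length = m + 3 := by
  unfold SimpleGraph.IsHamiltonian
  simp only [Fintype.card_fin]
  constructor
  · intro h
    obtain ⟨a, p, hp⟩ := h (by omega)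
    exact ⟨a, p, hp.isCycle, by simpa using hp.length_eq⟩
  · rintro ⟨a, p, h1, h2⟩ -
    exact ⟨a, p, Walk.isHamiltonianCycle_iff_isCycle_and_length_eq.2 ⟨h1, by simpa using h2⟩⟩

theorem ham_iff_contained {m : ℕ} (G : SimpleGraph (Fin (m + 3))) :
    G.IsHamiltonian ↔ cycleGraph (m + 3) ⊑ G := by
  rw [ham_iff, cycleGraph_isContained_iff (by omega)]

theorem ham_iff_perm {m : ℕ} (G : SimpleGraph (Fin (m + 3))) :
    G.IsHamiltonian ↔ ∃ σ : Equiv.Perm (Fin (m + 3)), (cycleGraph (m + 3)).map σ.toEmbedding ≤ G := by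
  rw [ham_iff_contained]
  constructor
  · rintro ⟨f⟩
    refine ⟨Equiv.ofBijective f (Finite.injective_iff_bijective.1 f.injective), ?_⟩
    intro u v h
    rw [SimpleGraph.map_adj] at h
    obtain ⟨a, b, hab, rfl, rfl⟩ := h
    exact f.toHom.map_adj hab
  · rintro ⟨σ, h⟩
    refine ⟨⟨⟨σ, fun {a b} hab => h ?_⟩, σ.injective⟩⟩
    rw [SimpleGraph.map_adj]
    exact ⟨a, b, hab, rfl, rfl⟩

theorem not_ham {m : ℕ} {K : SimpleGraph (Fin (m + 3))} {σ : Equiv.Perm (Fin (m + 3))}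
    (hK : K < (cycleGraph (m + 3)).map σ.toEmbedding) : ¬ K.IsHamiltonian := by
  intro h
  obtain ⟨τ, hτ⟩ := (ham_iff_perm K).1 h
  have h1 := card_lt_of_lt hK
  have h2 : Nat.card ((cycleGraph (m + 3)).map τ.toEmbedding).edgeSet =
      Nat.card (cycleGraph (m + 3)).edgeSet :=
    (Nat.card_congr (Iso.map τ (cycleGraph (m + 3))).mapEdgeSet).symm
  have h3 : Nat.card ((cycleGraph (m + 3)).map τ.toEmbedding).edgeSet ≤ Nat.card K.edgeSet :=
    Set.ncard_le_ncard (edgeSet_subset_edgeSet.2 hτ)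
  omega

theorem ham_random {m k : ℕ} {Ω : Type} [Fintype Ω]
    (P : Ω → Set (SimpleGraph (Fin (m + 3)) → Prop)) (hP : ∀ ω, ∀ g ∈ P ω, Reads k g)
    (hS : ∀ (ω : Ω) (G : SimpleGraph (Fin (m + 3))), (∀ g ∈ P ω, g G) → G.IsHamiltonian) :
    ∃ G : SimpleGraph (Fin (m + 3)), G.IsHamiltonian ∧
      (m + 2).factorial * Nat.card {ω : Ω // ∀ g ∈ P ω, g G} ≤
        2 * k ^ (m + 3) * Fintype.card Ω := by
  obtain ⟨σ, hσ⟩ := copies_random (cycleGraph (m + 3)) P hP (fun ω τ K hK => by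
    by_contra hcon
    push Not at hcon
    exact not_ham hK (hS ω K hcon))
  refine ⟨_, (ham_iff_perm _).2 ⟨σ, le_refl _⟩, ?_⟩
  rw [cycle_edges] at hσ
  have h1 : (m + 3) * ((m + 2).factorial * Nat.card {ω : Ω // ∀ g ∈ P ω,
      g ((cycleGraph (m + 3)).map σ.toEmbedding)}) ≤
      (m + 3) * (2 * k ^ (m + 3) * Fintype.card Ω) := by
    calc (m + 3) * ((m + 2).factorial * Nat.card {ω : Ω // ∀ g ∈ P ω,
          g ((cycleGraph (m + 3)).map σ.toEmbedding)})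
        = (m + 3).factorial * Nat.card {ω : Ω // ∀ g ∈ P ω,
          g ((cycleGraph (m + 3)).map σ.toEmbedding)} := by
          rw [Nat.factorial_succ (m + 2)]; ring
      _ ≤ k ^ (m + 3) * Nat.card (cycleGraph (m + 3) ≃g cycleGraph (m + 3)) *
          Fintype.card Ω := hσ
      _ ≤ k ^ (m + 3) * (2 * (m + 3)) * Fintype.card Ω :=
          Nat.mul_le_mul_right _ (Nat.mul_le_mul_left _ (cycle_aut m))
      _ = _ := by ring
  exact Nat.le_of_mul_le_mul_left h1 (by omega)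

theorem ham_upper (m : ℕ) : ∃ P : Equiv.Perm (Fin (m + 3)) → Set (SimpleGraph (Fin (m + 3)) → Prop),
    (∀ σ, ∀ g ∈ P σ, Reads 1 g) ∧
      ∀ G : SimpleGraph (Fin (m + 3)), G.IsHamiltonian ↔ ∃ σ, ∀ g ∈ P σ, g G := by
  refine ⟨fun σ => {g | ∃ e ∈ ((cycleGraph (m + 3)).map σ.toEmbedding).edgeSet,
    g = fun G => e ∈ G.edgeSet}, ?_, ?_⟩
  · rintro σ g ⟨e, -, rfl⟩
    exact ⟨{e}, by simp, fun G G' h => h e (mem_singleton_self _)⟩
  · intro G
    rw [ham_iff_perm]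
    refine exists_congr fun σ => ?_
    rw [← edgeSet_subset_edgeSet]
    constructor
    · rintro h g ⟨e, he, rfl⟩
      exact h he
    · intro h e he
      exact h _ ⟨e, he, rfl⟩

theorem ham_main (n : ℕ) (hn : 3 ≤ n) :
    (∀ (k : ℕ) (Ω : Type) [Fintype Ω] (P : Ω → Set (SimpleGraph (Fin n) → Prop)),
      (∀ ω, ∀ g ∈ P ω, Reads k g) →
      (∀ (ω : Ω) (G : SimpleGraph (Fin n)), (∀ g ∈ P ω, g G) → G.IsHamiltonian) →
      ∃ G : SimpleGraph (Fin n), G.IsHamiltonian ∧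
        (n - 1).factorial * Nat.card {ω : Ω // ∀ g ∈ P ω, g G} ≤ 2 * k ^ n * Fintype.card Ω) ∧
    ∃ P : Equiv.Perm (Fin n) → Set (SimpleGraph (Fin n) → Prop),
      (∀ σ, ∀ g ∈ P σ, Reads 1 g) ∧
        ∀ G : SimpleGraph (Fin n), G.IsHamiltonian ↔ ∃ σ, ∀ g ∈ P σ, g G := by
  obtain ⟨m, rfl⟩ : ∃ m, n = m + 3 := ⟨n - 3, by omega⟩
  refine ⟨fun k Ω _ P hP hS => ?_, ham_upper m⟩
  exact ham_random P hP hS

end Pool.Agent.H831R3.MM
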