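import Pool.Agent.H831R3.MM.Core

/-!
# Edges and automorphisms of paths and cycles
-/

set_option autoImplicit false

namespace Pool.Agent.H831R3.MM

open SimpleGraph

theorem path_edges (m : ℕ) : Nat.card (pathGraph (m + 1)).edgeSet = m := by
  let f : Fin m → Sym2 (Fin (m + 1)) := fun i => s(i.castSucc, i.succ)
  have hf : Function.Injective f := by
    intro i j h
    rw [Sym2.eq_iff] at h
    rcases h with ⟨h, -⟩ | ⟨h, h'⟩
    · exact Fin.castSucc_injective _ h
    · rw [Fin.ext_iff] at h h'
      simp only [Fin.val_castSucc, Fin.val_succ] at h h'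
      omega
  have hr : (pathGraph (m + 1)).edgeSet = Set.range f := by
    ext e
    induction e with | h u v
    rw [mem_edgeSet, pathGraph_adj, Set.mem_range]
    constructor
    · rintro (h | h)
      · refine ⟨⟨u.val, by omega⟩, ?_⟩
        rw [Sym2.eq_iff]
        exact Or.inl ⟨Fin.ext rfl, Fin.ext h⟩
      · refine ⟨⟨v.val, by omega⟩, ?_⟩
        rw [Sym2.eq_iff]
        exact Or.inr ⟨Fin.ext rfl, Fin.ext h⟩
    · rintro ⟨i, hi⟩
      rw [Sym2.eq_iff] at hi
      rcases hi with ⟨h1, h2⟩ | ⟨h1, h2⟩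
      · left; rw [← h1, ← h2]; simp
      · right; rw [← h1, ← h2]; simp
  rw [hr, Nat.card_congr (Equiv.ofInjective f hf).symm, Nat.card_fin]

theorem path_aut (m : ℕ) :
    Nat.card (pathGraph (m + 1) ≃g pathGraph (m + 1)) ≤ 2 := by
  classical
  have hadj : ∀ (φ : pathGraph (m + 1) ≃g pathGraph (m + 1)) (u v : Fin (m + 1)),
      ((φ u).val + 1 = (φ v).val ∨ (φ v).val + 1 = (φ u).val) ↔
        (u.val + 1 = v.val ∨ v.val + 1 = u.val) := by
    intro φ u v
    rw [← pathGraph_adj, ← pathGraph_adj]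
    exact φ.map_rel_iff
  have hend : ∀ φ : pathGraph (m + 1) ≃g pathGraph (m + 1),
      (φ 0).val = 0 ∨ (φ 0).val = m := by
    intro φ
    by_contra hcon
    push Not at hcon
    obtain ⟨h0, hm⟩ := hcon
    have hlt := (φ 0).isLt
    obtain ⟨u, hu⟩ := φ.surjective ⟨(φ 0).val - 1, by omega⟩
    obtain ⟨v, hv⟩ := φ.surjective ⟨(φ 0).val + 1, by omega⟩
    have h1 := (hadj φ 0 u).1 (by rw [hu]; right; simp; omega)
    have h2 := (hadj φ 0 v).1 (by rw [hv]; left; simp)
    simp only [Fin.val_zero] at h1 h2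
    have h3 : u = v := Fin.ext (by omega)
    rw [h3, hv] at hu
    rw [Fin.ext_iff] at hu
    simp only at hu
    omega
  have hdet : ∀ φ ψ : pathGraph (m + 1) ≃g pathGraph (m + 1), φ 0 = ψ 0 → φ = ψ := by
    intro φ ψ h
    have key : ∀ j : ℕ, ∀ hj : j < m + 1, φ ⟨j, hj⟩ = ψ ⟨j, hj⟩ := by
      intro j
      induction j using Nat.twoStepInduction with
      | zero => intro hj; exact h
      | one =>
        intro hj
        have h1 := (hadj φ 0 ⟨1, hj⟩).2 (by left; simp)
        have h2 := (hadj ψ 0 ⟨1, hj⟩).2 (by left; simp)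
        have h3 := hend φ
        have h4 := (φ ⟨1, hj⟩).isLt
        have h5 := (ψ ⟨1, hj⟩).isLt
        rw [← h] at h2
        exact Fin.ext (by omega)
      | more j ih1 ih2 =>
        intro hj
        have e1 := ih1 (by omega)
        have e2 := ih2 (by omega)
        have h1 := (hadj φ ⟨j + 1, by omega⟩ ⟨j + 2, hj⟩).2 (by left; simp)
        have h2 := (hadj ψ ⟨j + 1, by omega⟩ ⟨j + 2, hj⟩).2 (by left; simp)
        have h3 := (hadj φ ⟨j, by omega⟩ ⟨j + 1, by omega⟩).2 (by left; simp)
        have h4 : φ ⟨j + 2, hj⟩ ≠ φ ⟨j, by omega⟩ := fun hh => by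
          have := φ.injective hh
          rw [Fin.ext_iff] at this
          simp only at this
          omega
        have h5 : ψ ⟨j + 2, hj⟩ ≠ ψ ⟨j, by omega⟩ := fun hh => by
          have := ψ.injective hh
          rw [Fin.ext_iff] at this
          simp only at this
          omega
        rw [← e1] at h5
        rw [← e2] at h2
        rw [Ne, Fin.ext_iff] at h4 h5
        exact Fin.ext (by omega)
    ext x
    exact congrArg Fin.val (key x.val x.isLt)
  have hinj : Function.Injective
      (fun φ : pathGraph (m + 1) ≃g pathGraph (m + 1) => decide ((φ 0).val = 0)) := by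
    intro φ ψ h
    simp only [decide_eq_decide] at h
    refine hdet φ ψ (Fin.ext ?_)
    have h1 := hend φ
    have h2 := hend ψ
    omega
  have := Nat.card_le_card_of_injective _ hinj
  rwa [Nat.card_eq_fintype_card (α := Bool), Fintype.card_bool] at this

theorem cycle_edges (m : ℕ) : Nat.card (cycleGraph (m + 3)).edgeSet = m + 3 := by
  have h := (cycleGraph (m + 3)).sum_degrees_eq_twice_card_edges
  simp only [cycleGraph_degree_three_le, Finset.sum_const, Finset.card_univ, Fintype.card_fin,
    smul_eq_mul] at h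
  rw [Nat.card_eq_fintype_card, ← edgeFinset_card]
  omega

open scoped Fin.CommRing in
theorem cycle_aut (m : ℕ) :
    Nat.card (cycleGraph (m + 3) ≃g cycleGraph (m + 3)) ≤ 2 * (m + 3) := by
  classical
  have h2 : (2 : Fin (m + 3)) ≠ 0 := by
    intro h
    have h' := congrArg Fin.val h
    have : ((2 : Fin (m + 3)) : ℕ) = 2 % (m + 3) := rfl
    rw [this, Nat.mod_eq_of_lt (by omega)] at h'
    simp at h'
  have hadj : ∀ (φ : cycleGraph (m + 3) ≃g cycleGraph (m + 3)) (u : Fin (m + 3)),
      φ (u + 1) = φ u + 1 ∨ φ (u + 1) = φ u - 1 := by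
    intro φ u
    have h : (cycleGraph (m + 3)).Adj (φ (u + 1)) (φ u) := by
      rw [φ.map_rel_iff, cycleGraph_adj]
      left
      ring
    rw [cycleGraph_adj] at h
    rcases h with h | h
    · left; linear_combination h
    · right; linear_combination -h
  have hrec : ∀ (φ : cycleGraph (m + 3) ≃g cycleGraph (m + 3)) (ε : Fin (m + 3)),
      φ 1 = φ 0 + ε → (ε = 1 ∨ ε = -1) →
        ∀ j : ℕ, φ (j : Fin (m + 3)) = φ 0 + j * ε ∧
          φ ((j : Fin (m + 3)) + 1) = φ 0 + j * ε + ε := by
    intro φ ε h1 hε j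
    induction j with
    | zero => simp [h1]
    | succ j ih =>
      obtain ⟨ih1, ih2⟩ := ih
      have e1 : φ ((j + 1 : ℕ) : Fin (m + 3)) = φ 0 + ((j + 1 : ℕ) : Fin (m + 3)) * ε := by
        push_cast
        rw [ih2]; ring
      refine ⟨e1, ?_⟩
      have h3 := hadj φ ((j + 1 : ℕ) : Fin (m + 3))
      rw [e1] at h3
      by_contra hcon
      have h4 : φ (((j + 1 : ℕ) : Fin (m + 3)) + 1) = φ (j : Fin (m + 3)) := by
        rw [ih1]
        push_cast at h3 hcon ⊢
        rcases hε with rfl | rfl
        · rcases h3 with h3 | h3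
          · exact absurd h3 hcon
          · rw [h3]; ring
        · rcases h3 with h3 | h3
          · rw [h3]; ring
          · exact absurd (by rw [h3]; ring) hcon
      have h5 := φ.injective h4
      push_cast at h5
      apply h2
      have h6 : (j : Fin (m + 3)) + 1 + 1 - j = 0 := by rw [h5]; ring
      rw [← h6]
      ring
  have hinj : Function.Injective
      (fun φ : cycleGraph (m + 3) ≃g cycleGraph (m + 3) => (decide (φ 1 = φ 0 + 1), φ 0)) := by
    intro φ ψ h
    rw [Prod.ext_iff] at h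
    obtain ⟨h3, h4⟩ := h
    simp only [decide_eq_decide] at h3 h4
    have hε : ∀ χ : cycleGraph (m + 3) ≃g cycleGraph (m + 3),
        ¬ χ 1 = χ 0 + 1 → χ 1 = χ 0 + -1 := by
      intro χ hχ
      have := hadj χ 0
      rw [zero_add] at this
      rcases this with h | h
      · exact absurd h hχ
      · rw [h]; ring
    have key : ∀ j : ℕ, φ (j : Fin (m + 3)) = ψ (j : Fin (m + 3)) := by
      intro j
      by_cases h5 : φ 1 = φ 0 + 1
      · rw [(hrec φ 1 h5 (Or.inl rfl) j).1, (hrec ψ 1 (h3.1 h5) (Or.inl rfl) j).1, h4]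
      · rw [(hrec φ (-1) (hε φ h5) (Or.inr rfl) j).1,
          (hrec ψ (-1) (hε ψ (fun h => h5 (h3.2 h))) (Or.inr rfl) j).1, h4]
    ext x
    have := key x.val
    rw [Fin.cast_val_eq_self] at this
    rw [this]
  have := Nat.card_le_card_of_injective _ hinj
  rwa [Nat.card_prod, Nat.card_eq_fintype_card (α := Bool), Fintype.card_bool, Nat.card_fin] at this

end Pool.Agent.H831R3.MM
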