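import Pool.Agent.H831R3.MM.Graph
import Pool.Agent.H831R3.MM.PathCycle

/-!
# Graph isomorphism as a disjunction of conjunctions of local tests
-/

set_option autoImplicit false

namespace Pool.Agent.H831R3.MM

open Finset SimpleGraph

/-- The graphs isomorphic to `H` are those that pass all the tests of one of `t` sets of tests,
each of which looks at no more than `k` pairs of vertices of the graph. -/
def RecScheme {n : ℕ} (H : SimpleGraph (Fin n)) (t k : ℕ) : Prop :=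
  ∃ P : Fin t → Set (SimpleGraph (Fin n) → Prop), (∀ i, ∀ g ∈ P i, Reads k g) ∧
    ∀ G : SimpleGraph (Fin n), Nonempty (G ≃g H) ↔ ∃ i, ∀ g ∈ P i, g G

/-- The test `g` of two graphs looks at no more than `k` pairs of vertices of the two graphs. -/
def Reads2 {V : Type} (k : ℕ) (g : SimpleGraph V → SimpleGraph V → Prop) : Prop :=
  ∃ T T' : Finset (Sym2 V), T.card + T'.card ≤ k ∧ ∀ G G' H H' : SimpleGraph V,
    (∀ e ∈ T, e ∈ G.edgeSet ↔ e ∈ G'.edgeSet) → (∀ e ∈ T', e ∈ H.edgeSet ↔ e ∈ H'.edgeSet) →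
      (g G H ↔ g G' H')

/-- Two graphs on `n` vertices are isomorphic if and only if they pass all the tests of one of `t`
sets of tests, each of which looks at no more than `k` pairs of vertices of the two graphs. -/
def IsoScheme (n t k : ℕ) : Prop :=
  ∃ P : Fin t → Set (SimpleGraph (Fin n) → SimpleGraph (Fin n) → Prop),
    (∀ i, ∀ g ∈ P i, Reads2 k g) ∧
      ∀ G H : SimpleGraph (Fin n), Nonempty (G ≃g H) ↔ ∃ i, ∀ g ∈ P i, g G H

theorem IsoScheme.rec {n t k : ℕ} (h : IsoScheme n t k) (H : SimpleGraph (Fin n)) :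
    RecScheme H t k := by
  obtain ⟨P, hP, hS⟩ := h
  refine ⟨fun i => (fun g => fun G => g G H) '' P i, ?_, ?_⟩
  · rintro i _ ⟨g, hg, rfl⟩
    obtain ⟨T, T', hT, h⟩ := hP i g hg
    exact ⟨T, by omega, fun G G' hG => h G G' H H hG fun _ _ => Iff.rfl⟩
  · intro G
    rw [hS]
    simp only [Set.forall_mem_image]

theorem card_lt_of_lt {n : ℕ} {K H : SimpleGraph (Fin n)} {σ : Equiv.Perm (Fin n)}
    (h : K < H.map σ.toEmbedding) : Nat.card K.edgeSet < Nat.card H.edgeSet := by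
  have h1 : Nat.card (H.map σ.toEmbedding).edgeSet = Nat.card H.edgeSet :=
    (Nat.card_congr (Iso.map σ H).mapEdgeSet).symm
  rw [← h1]
  exact Set.ncard_lt_ncard (edgeSet_ssubset_edgeSet.2 h)

theorem rec_lower {n t k : ℕ} (H : SimpleGraph (Fin n)) (h : RecScheme H t k) :
    n.factorial ≤ t * k ^ Nat.card H.edgeSet * Nat.card (H ≃g H) := by
  obtain ⟨P, hP, hS⟩ := h
  refine copies H P hP (fun σ => (hS _).1 ⟨(Iso.map σ H).symm⟩) ?_
  intro i σ K hK
  by_contra hcon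
  push Not at hcon
  obtain ⟨φ⟩ := (hS K).2 ⟨i, hcon⟩
  have h1 := card_lt_of_lt hK
  rw [Nat.card_congr φ.mapEdgeSet] at h1
  exact lt_irrefl _ h1

theorem iso_lower {n t k : ℕ} (hn : 1 ≤ n) (h : IsoScheme n t k) :
    n.factorial ≤ 2 * t * k ^ (n - 1) := by
  obtain ⟨m, rfl⟩ : ∃ m, n = m + 1 := ⟨n - 1, by omega⟩
  have h1 := rec_lower _ (h.rec (pathGraph (m + 1)))
  rw [path_edges] at h1
  calc (m + 1).factorial ≤ t * k ^ m * Nat.card (pathGraph (m + 1) ≃g pathGraph (m + 1)) := h1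
    _ ≤ t * k ^ m * 2 := Nat.mul_le_mul_left _ (path_aut m)
    _ = _ := by rw [Nat.add_sub_cancel]; ring

theorem iso_upper (n : ℕ) : IsoScheme n n.factorial 2 := by
  classical
  have e : Fin n.factorial ≃ Equiv.Perm (Fin n) :=
    (Fintype.equivFinOfCardEq (by rw [Fintype.card_perm, Fintype.card_fin])).symm
  refine ⟨fun i => {g | ∃ u v : Fin n, g = fun G H => (G.Adj u v ↔ H.Adj (e i u) (e i v))}, ?_, ?_⟩
  · rintro i g ⟨u, v, rfl⟩
    refine ⟨{s(u, v)}, {s(e i u, e i v)}, by simp, ?_⟩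
    intro G G' H H' h1 h2
    have h3 : G.Adj u v ↔ G'.Adj u v := by
      have := h1 s(u, v) (mem_singleton_self _)
      rwa [mem_edgeSet, mem_edgeSet] at this
    have h4 : H.Adj (e i u) (e i v) ↔ H'.Adj (e i u) (e i v) := by
      have := h2 s(e i u, e i v) (mem_singleton_self _)
      rwa [mem_edgeSet, mem_edgeSet] at this
    exact iff_congr h3 h4
  · intro G H
    constructor
    · rintro ⟨φ⟩
      refine ⟨e.symm φ.toEquiv, ?_⟩
      rintro g ⟨u, v, rfl⟩
      rw [Equiv.apply_symm_apply]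
      exact φ.map_rel_iff.symm
    · rintro ⟨i, hi⟩
      exact ⟨⟨e i, fun {u v} => (hi _ ⟨u, v, rfl⟩).symm⟩⟩

theorem iso_main :
    (∀ n t k : ℕ, 1 ≤ n → IsoScheme n t k → n.factorial ≤ 2 * t * k ^ (n - 1)) ∧
    (∀ n : ℕ, IsoScheme n n.factorial 2) ∧
    (∀ (n t k : ℕ) (H : SimpleGraph (Fin n)), RecScheme H t k →
      n.factorial ≤ t * k ^ Nat.card H.edgeSet * Nat.card (H ≃g H)) :=
  ⟨fun _ _ _ hn h => iso_lower hn h, iso_upper, fun _ _ _ H h => rec_lower H h⟩

end Pool.Agent.H831R3.MM
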