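import Pool.Agent.H831R3.MM.Core

/-!
# The satisfiability of CNF formulas as a disjunction of conjunctions of local tests
-/

set_option autoImplicit false

namespace Pool.Agent.H831R3.MM

open Finset

/-- The formula with `n` variables and `m` clauses given by its incidence matrix `φ` is satisfiable:
`φ (j, i, b) = true` means that the clause `j` contains the literal of the variable `i` which is
true if the value of the variable is `b`. -/
def Sat {m n : ℕ} (φ : Fin m × Fin n × Bool → Bool) : Prop :=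
  ∃ a : Fin n → Bool, ∀ j, ∃ i, φ (j, i, a i) = true

/-- The test `g` of a sequence of bits indexed by `α` depends on at most `k` of the bits. -/
def Local {α : Type*} (k : ℕ) (g : (α → Bool) → Prop) : Prop :=
  ∃ T : Finset α, T.card ≤ k ∧ ∀ x y : α → Bool, (∀ a ∈ T, x a = y a) → (g x ↔ g y)

/-- The set of bits of a formula whose clauses are single literals. -/
def unitSet {m n : ℕ} (p : (Fin m → Fin n) × (Fin n → Bool)) : Finset (Fin m × Fin n × Bool) :=
  univ.image fun j => (j, p.1 j, p.2 (p.1 j))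

theorem mem_unitSet {m n : ℕ} {p : (Fin m → Fin n) × (Fin n → Bool)} {x : Fin m × Fin n × Bool} :
    x ∈ unitSet p ↔ x.2.1 = p.1 x.1 ∧ x.2.2 = p.2 (p.1 x.1) := by
  rw [unitSet, mem_image]
  constructor
  · rintro ⟨j, -, rfl⟩
    exact ⟨rfl, rfl⟩
  · rintro ⟨h1, h2⟩
    exact ⟨x.1, mem_univ _, Prod.ext rfl (Prod.ext h1.symm h2.symm)⟩

theorem card_unitSet {m n : ℕ} (p : (Fin m → Fin n) × (Fin n → Bool)) : (unitSet p).card = m := by
  rw [unitSet, card_image_of_injective _ fun i j h => (Prod.ext_iff.1 h).1, card_univ,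
    Fintype.card_fin]

theorem unitSet_inj {m n : ℕ} {p q : (Fin m → Fin n) × (Fin n → Bool)}
    (hp : Function.Surjective p.1) (h : unitSet p = unitSet q) : p = q := by
  have h1 : ∀ j, p.1 j = q.1 j ∧ p.2 (p.1 j) = q.2 (q.1 j) := fun j => by
    have : (j, p.1 j, p.2 (p.1 j)) ∈ unitSet q := by
      rw [← h]; exact mem_unitSet.2 ⟨rfl, rfl⟩
    exact mem_unitSet.1 this
  refine Prod.ext (funext fun j => (h1 j).1) (funext fun i => ?_)
  obtain ⟨j, rfl⟩ := hp i
  have := (h1 j).2
  rwa [← (h1 j).1] at this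

/-- The formula with the given set of bits. -/
def code {m n : ℕ} (K : Finset (Fin m × Fin n × Bool)) : Fin m × Fin n × Bool → Bool :=
  fun x => decide (x ∈ K)

theorem not_sat {m n : ℕ} {K : Finset (Fin m × Fin n × Bool)} (h : K.card < m) :
    ¬ Sat (code K) := by
  rintro ⟨a, ha⟩
  have h1 : (univ : Finset (Fin m)) ⊆ K.image Prod.fst := by
    intro j _
    obtain ⟨i, hi⟩ := ha j
    rw [mem_image]
    exact ⟨(j, i, a i), by simpa [code] using hi, rfl⟩
  have h2 := (card_le_card h1).trans card_image_le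
  rw [card_univ, Fintype.card_fin] at h2
  omega

theorem lower {m n k t : ℕ} (P : Fin t → Set ((Fin m × Fin n × Bool → Bool) → Prop))
    (hP : ∀ i, ∀ g ∈ P i, Local k g)
    (hS : ∀ φ : Fin m × Fin n × Bool → Bool, Sat φ ↔ ∃ i, ∀ g ∈ P i, g φ) :
    2 ^ n * Fintype.card {f : Fin m → Fin n // Function.Surjective f} ≤ t * k ^ m := by
  classical
  let M : Finset (Finset (Fin m × Fin n × Bool)) :=
    (univ.filter fun p : (Fin m → Fin n) × (Fin n → Bool) => Function.Surjective p.1).image unitSet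
  have hMc : M.card = 2 ^ n * Fintype.card {f : Fin m → Fin n // Function.Surjective f} := by
    have h0 : M.card = (univ.filter fun p : (Fin m → Fin n) × (Fin n → Bool) =>
        Function.Surjective p.1).card := by
      refine card_image_of_injOn fun p hp q _ h => unitSet_inj ?_ h
      rw [mem_coe, mem_filter] at hp
      exact hp.2
    have h1 : (univ.filter fun p : (Fin m → Fin n) × (Fin n → Bool) => Function.Surjective p.1) =
        (univ.filter fun f : Fin m → Fin n => Function.Surjective f) ×ˢ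
          (univ : Finset (Fin n → Bool)) := by
      ext p
      simp
    rw [h0, h1, card_product, card_univ, Fintype.card_fun, Fintype.card_bool, Fintype.card_fin,
      mul_comm, Fintype.card_subtype]
  rw [← hMc]
  have hMm : ∀ A ∈ M, A.card = m := by
    intro A hA
    rw [mem_image] at hA
    obtain ⟨p, -, rfl⟩ := hA
    exact card_unitSet p
  have hMs : ∀ A ∈ M, Sat (code A) := by
    intro A hA
    rw [mem_image] at hA
    obtain ⟨p, -, rfl⟩ := hA
    refine ⟨p.2, fun j => ⟨p.1 j, ?_⟩⟩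
    simp [code, mem_unitSet]
  have hcov : M ⊆ univ.biUnion fun i : Fin t => M.filter fun A => ∀ g ∈ P i, g (code A) := by
    intro A hA
    obtain ⟨i, hi⟩ := (hS _).1 (hMs A hA)
    rw [mem_biUnion]
    exact ⟨i, mem_univ _, mem_filter.2 ⟨hA, hi⟩⟩
  calc M.card ≤ (univ.biUnion fun i : Fin t => M.filter fun A => ∀ g ∈ P i, g (code A)).card :=
        card_le_card hcov
    _ ≤ ∑ i : Fin t, (M.filter fun A => ∀ g ∈ P i, g (code A)).card := card_biUnion_le
    _ ≤ ∑ _i : Fin t, k ^ m := by
      refine sum_le_sum fun i _ => ?_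
      refine core (fun a x => x a = true) code _ ?_ k m (P i) ?_ ?_ ?_ ?_
      · intro A _ K _ a
        simp [code]
      · intro g hg
        obtain ⟨T, hT, h⟩ := hP i g hg
        refine ⟨T, hT, fun x y hxy => h x y fun a ha => ?_⟩
        have := hxy a ha
        cases hx : x a <;> cases hy : y a <;> simp_all
      · intro A hA
        exact hMm A (mem_filter.1 hA).1
      · intro A hA g hg
        exact (mem_filter.1 hA).2 g hg
      · intro A hA K hK
        have h1 : K.card < m := (card_lt_card hK).trans_eq (hMm A (mem_filter.1 hA).1)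
        by_contra hcon
        push Not at hcon
        exact not_sat h1 ((hS _).2 ⟨i, hcon⟩)
    _ = t * k ^ m := by rw [sum_const, card_univ, Fintype.card_fin, smul_eq_mul]

theorem upper (m n : ℕ) : ∃ P : Fin (2 ^ n) → Set ((Fin m × Fin n × Bool → Bool) → Prop),
    (∀ i, ∀ g ∈ P i, Local n g) ∧
      ∀ φ : Fin m × Fin n × Bool → Bool, Sat φ ↔ ∃ i, ∀ g ∈ P i, g φ := by
  classical
  have e : Fin (2 ^ n) ≃ (Fin n → Bool) := (Fintype.equivFinOfCardEq (by simp)).symm
  refine ⟨fun i => {g | ∃ j : Fin m, g = fun φ => ∃ v, φ (j, v, e i v) = true}, ?_, ?_⟩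
  · rintro i g ⟨j, rfl⟩
    refine ⟨univ.image fun v => (j, v, e i v), ?_, ?_⟩
    · exact card_image_le.trans (by simp)
    · intro x y h
      have h' : ∀ v, x (j, v, e i v) = y (j, v, e i v) := fun v =>
        h _ (mem_image.2 ⟨v, mem_univ _, rfl⟩)
      simp only [h']
  · intro φ
    constructor
    · rintro ⟨a, ha⟩
      refine ⟨e.symm a, ?_⟩
      rintro g ⟨j, rfl⟩
      simpa using ha j
    · rintro ⟨i, hi⟩
      exact ⟨e i, fun j => hi _ ⟨j, rfl⟩⟩

theorem surj_ge (m n : ℕ) :
    n ^ m ≤ Fintype.card {f : Fin m → Fin n // Function.Surjective f} + n * (n - 1) ^ m := by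
  classical
  have h1 : (univ : Finset (Fin m → Fin n)) ⊆
      (univ.filter fun f : Fin m → Fin n => Function.Surjective f) ∪
        univ.biUnion fun i : Fin n => Fintype.piFinset fun _ : Fin m => univ.erase i := by
    intro f _
    rw [mem_union, mem_filter, mem_biUnion]
    by_cases hf : Function.Surjective f
    · exact Or.inl ⟨mem_univ _, hf⟩
    · right
      unfold Function.Surjective at hf
      push Not at hf
      obtain ⟨i, hi⟩ := hf
      refine ⟨i, mem_univ _, ?_⟩
      rw [Fintype.mem_piFinset]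
      intro j
      rw [mem_erase]
      exact ⟨hi j, mem_univ _⟩
  have h2 := (card_le_card h1).trans (card_union_le _ _)
  rw [card_univ, Fintype.card_fun, Fintype.card_fin, Fintype.card_fin] at h2
  refine h2.trans ?_
  rw [Fintype.card_subtype]
  refine Nat.add_le_add_left ?_ _
  refine card_biUnion_le.trans ?_
  rw [sum_congr rfl fun i _ => Fintype.card_piFinset_const _ _]
  simp

theorem arith {m n : ℕ} (hn : 1 ≤ n) (hm : 2 * n ^ 2 ≤ m) : 2 ^ n * (n * (n - 1) ^ m) < n ^ m := by
  obtain ⟨q, rfl⟩ : ∃ q, n = q + 1 := ⟨n - 1, by omega⟩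
  rw [Nat.add_sub_cancel]
  rcases Nat.eq_zero_or_pos q with rfl | hq
  · have : m ≠ 0 := by omega
    simp [this]
  · have h1 : 2 * q ^ q ≤ (q + 1) ^ q := by
      have h := one_add_mul_le_pow (a := (1 : ℝ) / q) (by
        have : (0 : ℝ) ≤ 1 / q := by positivity
        linarith) q
      have hq0 : (0 : ℝ) < q := by exact_mod_cast hq
      have h2 : (1 + (1 : ℝ) / q) ^ q * (q : ℝ) ^ q = ((q : ℝ) + 1) ^ q := by
        rw [← mul_pow]
        congr 1
        field_simp
      have h3 : (2 : ℝ) * (q : ℝ) ^ q ≤ ((q : ℝ) + 1) ^ q := by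
        rw [← h2]
        have h4 : (2 : ℝ) ≤ (1 + (1 : ℝ) / q) ^ q := by
          refine le_trans ?_ h
          rw [mul_one_div_cancel hq0.ne']
          norm_num
        exact mul_le_mul_of_nonneg_right h4 (by positivity)
      exact_mod_cast h3
    obtain ⟨s, hs⟩ : ∃ s, s = 2 * (q + 1) + 1 := ⟨_, rfl⟩
    obtain ⟨r, hr⟩ : ∃ r, m = q * s + r := by
      refine ⟨m - q * s, ?_⟩
      have : q * s ≤ 2 * (q + 1) ^ 2 := by rw [hs]; nlinarith
      omega
    have h2 : 2 ^ s * q ^ m ≤ (q + 1) ^ m := by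
      calc 2 ^ s * q ^ m
          = (2 * q ^ q) ^ s * q ^ r := by
            rw [hr, pow_add, pow_mul, mul_pow, mul_assoc]
        _ ≤ ((q + 1) ^ q) ^ s * (q + 1) ^ r := by
            gcongr
            omega
        _ = (q + 1) ^ m := by rw [hr, pow_add, pow_mul]
    have h3 : q + 1 < 2 ^ (q + 1) := Nat.lt_two_pow_self
    have hqm : 0 < q ^ m := Nat.pow_pos hq
    calc 2 ^ (q + 1) * ((q + 1) * q ^ m) < 2 ^ (q + 1) * (2 ^ (q + 1) * q ^ m) := by
          gcongr
      _ ≤ 2 ^ s * q ^ m := by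
          rw [← mul_assoc, ← pow_add]
          refine Nat.mul_le_mul_right _ (Nat.pow_le_pow_right (by norm_num) (by omega))
      _ ≤ (q + 1) ^ m := h2

theorem exact_bound {m n t : ℕ} (hm : 2 * n ^ 2 ≤ m) (hn : 1 ≤ n)
    (P : Fin t → Set ((Fin m × Fin n × Bool → Bool) → Prop))
    (hP : ∀ i, ∀ g ∈ P i, Local n g)
    (hS : ∀ φ : Fin m × Fin n × Bool → Bool, Sat φ ↔ ∃ i, ∀ g ∈ P i, g φ) : 2 ^ n ≤ t := by
  have h1 := lower P hP hS
  have h2 := surj_ge m n
  have h3 := arith hn hm
  by_contra hlt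
  have h4 : t + 1 ≤ 2 ^ n := by omega
  have h5 : 2 ^ n * n ^ m ≤ t * n ^ m + 2 ^ n * (n * (n - 1) ^ m) := by
    calc 2 ^ n * n ^ m ≤ 2 ^ n * (Fintype.card {f : Fin m → Fin n // Function.Surjective f} +
          n * (n - 1) ^ m) := Nat.mul_le_mul_left _ h2
      _ = 2 ^ n * Fintype.card {f : Fin m → Fin n // Function.Surjective f} +
          2 ^ n * (n * (n - 1) ^ m) := by ring
      _ ≤ _ := Nat.add_le_add_right h1 _
  have h6 : (t + 1) * n ^ m ≤ 2 ^ n * n ^ m := Nat.mul_le_mul_right _ h4
  have h7 : (t + 1) * n ^ m = t * n ^ m + n ^ m := by ring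
  omega

end Pool.Agent.H831R3.MM
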