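import Pool.Agent.H831R3.MM.Sat

/-!
# Many clauses: tests that read more bits
-/

set_option autoImplicit false

namespace Pool.Agent.H831R3.MM

open Finset

/-- The satisfiability of formulas with `n` variables and `m` clauses is the disjunction of `t`
conjunctions of tests, each of which reads at most `k` bits of the incidence matrix. -/
def Scheme (m n t k : ℕ) : Prop :=
  ∃ P : Fin t → Set ((Fin m × Fin n × Bool → Bool) → Prop),
    (∀ i, ∀ g ∈ P i, Local k g) ∧
      ∀ φ : Fin m × Fin n × Bool → Bool, Sat φ ↔ ∃ i, ∀ g ∈ P i, g φ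

section blocks

variable {r s : ℕ}

/-- The formula whose clause `(i, α)` says that the block `i` of variables is not `α`, unless the
bit `(i, α)` of `y` is `true`. -/
noncomputable def blockFormula (f : Fin (r * 2 ^ s) ≃ Fin r × (Fin s → Bool))
    (e : Fin (r * s) ≃ Fin r × Fin s) (y : Fin r × (Fin s → Bool) → Bool) :
    Fin (r * 2 ^ s) × Fin (r * s) × Bool → Bool := by
  classical
  exact fun x => decide ((e x.2.1).1 = (f x.1).1 ∧
    (x.2.2 ≠ (f x.1).2 (e x.2.1).2 ∨ y (f x.1) = true))

theorem blockFormula_sat (f : Fin (r * 2 ^ s) ≃ Fin r × (Fin s → Bool))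
    (e : Fin (r * s) ≃ Fin r × Fin s) (hs : 1 ≤ s) (y : Fin r × (Fin s → Bool) → Bool) :
    Sat (blockFormula f e y) ↔ ∀ i, ∃ α, y (i, α) = true := by
  classical
  constructor
  · rintro ⟨a, ha⟩ i
    refine ⟨fun l => a (e.symm (i, l)), ?_⟩
    obtain ⟨v, hv⟩ := ha (f.symm (i, fun l => a (e.symm (i, l))))
    rw [blockFormula, decide_eq_true_eq] at hv
    obtain ⟨h1, h2⟩ := hv
    rw [Equiv.apply_symm_apply] at h1 h2
    rcases h2 with h2 | h2
    · refine absurd ?_ h2
      have h3 : (i, (e v).2) = e v := Prod.ext h1.symm rfl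
      change a v = a (e.symm (i, (e v).2))
      rw [h3, Equiv.symm_apply_apply]
    · exact h2
  · intro h
    choose α hα using h
    refine ⟨fun v => α (e v).1 (e v).2, fun j => ?_⟩
    by_cases hj : (f j).2 = α (f j).1
    · refine ⟨e.symm ((f j).1, ⟨0, hs⟩), ?_⟩
      rw [blockFormula, decide_eq_true_eq]
      refine ⟨by simp, Or.inr ?_⟩
      have h3 : f j = ((f j).1, α (f j).1) := Prod.ext rfl hj
      change y (f j) = true
      rw [h3]
      exact hα _
    · have hj' : ∃ l, (f j).2 l ≠ α (f j).1 l := by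
        by_contra hcon
        push Not at hcon
        exact hj (funext hcon)
      obtain ⟨l, hl⟩ := hj'
      refine ⟨e.symm ((f j).1, l), ?_⟩
      rw [blockFormula, decide_eq_true_eq]
      refine ⟨by simp, Or.inl ?_⟩
      simpa using hl.symm

theorem block_lower {t k : ℕ} (hs : 1 ≤ s) (h : Scheme (r * 2 ^ s) (r * s) t k) :
    2 ^ (r * s) ≤ t * k ^ r := by
  classical
  obtain ⟨P, hP, hS⟩ := h
  let f : Fin (r * 2 ^ s) ≃ Fin r × (Fin s → Bool) :=
    (Fintype.equivFinOfCardEq (by simp)).symm
  let e : Fin (r * s) ≃ Fin r × Fin s := finProdFinEquiv.symm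
  let cd : Finset (Fin r × (Fin s → Bool)) → (Fin r × (Fin s → Bool) → Bool) :=
    fun K a => decide (a ∈ K)
  let F : (Fin r → Fin s → Bool) → Finset (Fin r × (Fin s → Bool)) :=
    fun α => univ.image fun i => (i, α i)
  have hF : Function.Injective F := by
    intro α β h
    funext i
    have : (i, α i) ∈ F β := by
      rw [← h]; exact mem_image.2 ⟨i, mem_univ _, rfl⟩
    obtain ⟨i', -, hi'⟩ := mem_image.1 this
    have h1 := (Prod.ext_iff.1 hi').1
    have h2 := (Prod.ext_iff.1 hi').2
    simp only at h1 h2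
    rw [← h2, h1]
  have hFc : ∀ α, (F α).card = r := by
    intro α
    rw [card_image_of_injective _ fun i j h => (Prod.ext_iff.1 h).1, card_univ, Fintype.card_fin]
  let M : Finset (Finset (Fin r × (Fin s → Bool))) := univ.image F
  have hMc : M.card = 2 ^ (r * s) := by
    rw [card_image_of_injective _ hF, card_univ, Fintype.card_fun, Fintype.card_fun,
      Fintype.card_bool, Fintype.card_fin, Fintype.card_fin, ← pow_mul, mul_comm s r]
  rw [← hMc]
  have hMs : ∀ A ∈ M, Sat (blockFormula f e (cd A)) := by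
    intro A hA
    obtain ⟨α, -, rfl⟩ := mem_image.1 hA
    rw [blockFormula_sat f e hs]
    intro i
    refine ⟨α i, ?_⟩
    simp only [cd, F, decide_eq_true_eq, mem_image]
    exact ⟨i, mem_univ _, rfl⟩
  have hcov : M ⊆ univ.biUnion fun i : Fin t =>
      M.filter fun A => ∀ g ∈ P i, g (blockFormula f e (cd A)) := by
    intro A hA
    obtain ⟨i, hi⟩ := (hS _).1 (hMs A hA)
    rw [mem_biUnion]
    exact ⟨i, mem_univ _, mem_filter.2 ⟨hA, hi⟩⟩
  calc M.card ≤ (univ.biUnion fun i : Fin t =>
          M.filter fun A => ∀ g ∈ P i, g (blockFormula f e (cd A))).card := card_le_card hcov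
    _ ≤ ∑ i : Fin t, (M.filter fun A => ∀ g ∈ P i, g (blockFormula f e (cd A))).card :=
        card_biUnion_le
    _ ≤ ∑ _i : Fin t, k ^ r := by
      refine sum_le_sum fun i _ => ?_
      refine core (fun a (x : Fin r × (Fin s → Bool) → Bool) => x a = true) cd _ ?_ k r
        ((fun g => fun y => g (blockFormula f e y)) '' P i) ?_ ?_ ?_ ?_
      · intro A _ K _ a
        simp [cd]
      · rintro _ ⟨g, hg, rfl⟩
        obtain ⟨T, hT, h⟩ := hP i g hg
        refine ⟨T.image fun x => f x.1, card_image_le.trans hT, fun x y hxy => ?_⟩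
        refine h _ _ fun a ha => ?_
        have h1 : x (f a.1) = true ↔ y (f a.1) = true :=
          hxy _ (mem_image.2 ⟨a, ha, rfl⟩)
        rw [blockFormula, blockFormula, decide_eq_decide, h1]
      · intro A hA
        obtain ⟨α, -, rfl⟩ := mem_image.1 (mem_filter.1 hA).1
        exact hFc α
      · rintro A hA _ ⟨g, hg, rfl⟩
        exact (mem_filter.1 hA).2 g hg
      · intro A hA K hK
        obtain ⟨α, -, rfl⟩ := mem_image.1 (mem_filter.1 hA).1
        have h1 : K.card < r := (card_lt_card hK).trans_eq (hFc α)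
        by_contra hcon
        push Not at hcon
        have h2 : Sat (blockFormula f e (cd K)) :=
          (hS _).2 ⟨i, fun g hg => hcon _ ⟨g, hg, rfl⟩⟩
        rw [blockFormula_sat f e hs] at h2
        have h3 : (univ : Finset (Fin r)) ⊆ K.image Prod.fst := by
          intro i _
          obtain ⟨β, hβ⟩ := h2 i
          exact mem_image.2 ⟨(i, β), by simpa [cd] using hβ, rfl⟩
        have h4 := (card_le_card h3).trans card_image_le
        rw [card_univ, Fintype.card_fin] at h4
        omega
    _ = t * k ^ r := by rw [sum_const, card_univ, Fintype.card_fin, smul_eq_mul]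

end blocks

/-- The collected statement. -/
theorem sat_main :
    (∀ m n : ℕ, 1 ≤ n → 2 * n ^ 2 ≤ m → IsLeast {t | Scheme m n t n} (2 ^ n)) ∧
    (∀ m n t k : ℕ, Scheme m n t k →
      2 ^ n * Fintype.card {f : Fin m → Fin n // Function.Surjective f} ≤ t * k ^ m) ∧
    (∀ r s t k : ℕ, 1 ≤ s → Scheme (r * 2 ^ s) (r * s) t k → 2 ^ (r * s) ≤ t * k ^ r) := by
  refine ⟨fun m n hn hm => ⟨upper m n, ?_⟩, ?_, fun r s t k hs h => block_lower hs h⟩
  · rintro t ⟨P, hP, hS⟩
    exact exact_bound hm hn P hP hS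
  · rintro m n t k ⟨P, hP, hS⟩
    exact lower P hP hS

end Pool.Agent.H831R3.MM
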